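import Pool.Agent.Helper19.Qh.Stmts

set_option autoImplicit false

/-! # Module KAP: partition of unity -/

namespace Pool.Agent.Helper19.Qh

open MeasureTheory Topology Set
open scoped ComplexConjugate

variable {m : ℕ}

/-- real part -/
noncomputable def kap_re : Q →L[ℝ] ℝ :=
  ⟨{ toFun := fun q => q.re
     map_add' := fun _ _ => rfl
     map_smul' := fun _ _ => rfl }, Quaternion.continuous_re⟩

/-- imaginary part -/
noncomputable def kap_im : Q →L[ℝ] Q :=
  ⟨{ toFun := fun q => q.im
     map_add' := fun x y => QuaternionAlgebra.im_add x y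
     map_smul' := fun r x => QuaternionAlgebra.im_smul x r }, Quaternion.continuous_im⟩

theorem kap_contDiff_hgt : ContDiff ℝ 1 (hgt : Pt m → ℝ) := by
  have h1 : ContDiff ℝ 1 (fun p : Pt m => p.1.re) := kap_re.contDiff.comp contDiff_fst
  have h2 : ContDiff ℝ 1 (fun p : Pt m => ‖p.2‖ ^ 2) := contDiff_snd.norm_sq ℝ
  exact ((contDiff_const.mul h1).add h2).neg

/-- smooth function, positive on `Sieg C a`, supported in `Sieg (C + 1) (a / 2)` -/
theorem kap_exists_eta {C a : ℝ} (hC : 0 ≤ C) (ha : 0 < a) :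
    ∃ η : Pt m → ℝ, ContDiff ℝ 1 η ∧ (∀ p, 0 ≤ η p) ∧
      (∀ p, p ∈ Sieg m C a → 0 < η p) ∧ (∀ p, η p ≠ 0 → p ∈ Sieg m (C + 1) (a / 2)) := by
  let f : ContDiffBump (0 : E m) := ⟨C + 1 / 2, C + 1, by linarith, by linarith⟩
  let f' : ContDiffBump (0 : Q) := ⟨C + 1 / 2, C + 1, by linarith, by linarith⟩
  refine ⟨fun p => f p.2 * f' p.1.im * Real.smoothTransition (hgt p - a / 2), ?_, ?_, ?_, ?_⟩
  · have h1 : ContDiff ℝ 1 (fun p : Pt m => f p.2) := f.contDiff.comp contDiff_snd
    have h1' : ContDiff ℝ 1 (fun p : Pt m => f' p.1.im) :=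
      f'.contDiff.comp (kap_im.contDiff.comp contDiff_fst)
    have h2 : ContDiff ℝ 1 (fun p : Pt m => Real.smoothTransition (hgt p - a / 2)) :=
      Real.smoothTransition.contDiff.comp (kap_contDiff_hgt.sub contDiff_const)
    exact (h1.mul h1').mul h2
  · intro p
    exact mul_nonneg (mul_nonneg f.nonneg f'.nonneg) (Real.smoothTransition.nonneg _)
  · rintro p ⟨hp1, hp2, hp3⟩
    apply mul_pos (mul_pos _ _)
    · apply Real.smoothTransition.pos_of_pos
      linarith
    · apply f.pos_of_mem_ball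
      rw [mem_ball_zero_iff]
      show ‖p.2‖ < C + 1
      linarith
    · apply f'.pos_of_mem_ball
      rw [mem_ball_zero_iff]
      show ‖p.1.im‖ < C + 1
      linarith
  · intro p hp
    refine ⟨?_, ?_, ?_⟩
    · by_contra hc
      apply hp
      have : f p.2 = 0 := by
        apply f.zero_of_le_dist
        rw [dist_zero_right]
        show C + 1 ≤ ‖p.2‖
        linarith
      simp only [this, zero_mul]
    · by_contra hc
      apply hp
      have : f' p.1.im = 0 := by
        apply f'.zero_of_le_dist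
        rw [dist_zero_right]
        show C + 1 ≤ ‖p.1.im‖
        linarith
      simp only [this, mul_zero, zero_mul]
    · by_contra hc
      apply hp
      have : Real.smoothTransition (hgt p - a / 2) = 0 :=
        Real.smoothTransition.zero_of_nonpos (by linarith)
      simp only [this, mul_zero]

theorem st_KAP (hcd : ST_CD) (hlf : ST_LF) : ST_KAP := by
  intro m M hM C a ha hcov
  have hC : 0 ≤ C := by
    obtain ⟨γ, _, h1, _⟩ := hcov ((-1 : Q), (0 : E m)) (by
      show 0 < hgt _
      have h1 : ((-1 : Q)).re = -1 := by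
        rw [Quaternion.re_neg, Quaternion.re_one]
      simp only [hgt, h1]
      norm_num)
    exact (norm_nonneg _).trans h1
  obtain ⟨η, hηs, hη0, hηp, hηsupp⟩ := kap_exists_eta (m := m) hC ha
  have ha' : 0 < a / 2 := by positivity
  -- the sum
  set W : Pt m → ℝ := fun p => ∑' γ : Gam M, η (act γ p) with hW
  have hfin : ∀ p ∈ SD m, ∃ U ∈ 𝓝 p, U ⊆ SD m ∧ ∃ S : Finset (Gam M), ∀ q ∈ U, ∀ γ : Gam M,
      γ ∉ S → η (act γ q) = 0 := by
    intro p hp
    obtain ⟨U, hU, hUs, hf⟩ := hlf m M hM p hp (C + 1) (a / 2) ha'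
    refine ⟨U, hU, hUs, hf.toFinset, fun q hq γ hγ => ?_⟩
    by_contra hc
    apply hγ
    rw [Set.Finite.mem_toFinset]
    exact ⟨q, hq, hηsupp _ hc⟩
  have hsum : ∀ p ∈ SD m, Summable fun γ : Gam M => η (act γ p) := by
    intro p hp
    obtain ⟨U, hU, _, S, hS⟩ := hfin p hp
    exact summable_of_ne_finset_zero (s := S) fun γ hγ => hS p (mem_of_mem_nhds hU) γ hγ
  have hWpos : ∀ p ∈ SD m, 0 < W p := by
    intro p hp
    obtain ⟨γ, hγ, h1⟩ := hcov p hp
    exact (hsum p hp).tsum_pos (fun δ => hη0 _) ⟨γ, hγ⟩ (hηp _ h1)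
  have hWinv : ∀ p ∈ SD m, ∀ γ : Gam M, W (act γ p) = W p := by
    intro p hp γ
    show ∑' δ : Gam M, η (act δ (act γ p)) = ∑' δ : Gam M, η (act δ p)
    rw [← (Equiv.mulRight γ).tsum_eq (fun δ : Gam M => η (act δ p))]
    congr 1
    funext δ
    rw [Equiv.coe_mulRight, Subgroup.coe_mul, act_mul _ γ.2.1 hp]
  have hSDo : IsOpen (SD m) := isOpen_lt continuous_const continuous_hgt
  have hWs : ContDiffOn ℝ 1 W (SD m) := by
    intro p hp
    apply ContDiffAt.contDiffWithinAt
    obtain ⟨U, hU, hUs, S, hS⟩ := hfin p hp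
    have h1 : W =ᶠ[𝓝 p] fun q => ∑ γ ∈ S, η (act γ q) := by
      filter_upwards [hU] with q hq
      exact tsum_eq_sum fun γ hγ => hS q hq γ hγ
    refine ContDiffAt.congr_of_eventuallyEq ?_ h1
    apply ContDiffAt.sum
    intro γ _
    exact hηs.contDiffAt.comp p
      (((hcd m (γ : V m ≃ₗ[Q] V m) γ.2.1).of_le (by norm_num)).contDiffAt (hSDo.mem_nhds hp))
  set κ : Pt m → ℝ := fun p => η p / W p with hκ
  have hηz : ∀ p : Pt m, hgt p < a / 2 → η p = 0 := by
    intro p hp
    by_contra hc
    have := (hηsupp p hc).2.2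
    linarith
  refine ⟨κ, C + 1, a / 2, ha', ?_, ?_, ?_, ?_⟩
  · rw [contDiff_iff_contDiffAt]
    intro p
    by_cases hp : hgt p < a / 2
    · have h1 : κ =ᶠ[𝓝 p] fun _ => 0 := by
        have h2 : {q : Pt m | hgt q < a / 2} ∈ 𝓝 p :=
          (isOpen_lt continuous_hgt continuous_const).mem_nhds hp
        filter_upwards [h2] with q hq
        show η q / W q = 0
        rw [hηz q hq, zero_div]
      exact contDiffAt_const.congr_of_eventuallyEq h1
    · have hpU : p ∈ SD m := by
        show 0 < hgt p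
        linarith
      exact hηs.contDiffAt.div (hWs.contDiffAt (hSDo.mem_nhds hpU)) (hWpos p hpU).ne'
  · intro p
    by_cases hp : p ∈ SD m
    · exact div_nonneg (hη0 p) (hWpos p hp).le
    · have : η p = 0 := hηz p (by
        have : ¬ (0 < hgt p) := hp
        linarith)
      show 0 ≤ η p / W p
      rw [this, zero_div]
  · intro p hp
    apply hηsupp
    intro h
    apply hp
    show η p / W p = 0
    rw [h, zero_div]
  · intro p hp
    have h1 : (fun γ : Gam M => κ (act γ p)) = fun γ : Gam M => η (act γ p) / W p := by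
      funext γ
      show η (act γ p) / W (act γ p) = _
      rw [hWinv p hp γ]
    rw [h1]
    have h2 := (hsum p hp).hasSum.div_const (W p)
    rwa [show (∑' γ : Gam M, η (act γ p)) / W p = 1 from div_self (hWpos p hp).ne'] at h2

end Pool.Agent.Helper19.Qh
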